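import Pool.Agent.Helper52.NF.St

set_option autoImplicit false

namespace Pool.Agent.Helper12.NF

open Pool.Agent.Helper52.NF Finset

theorem hSPL (h : StL1) : StSPL := by
  intro ε N _ _ α β Q z1 z2 y hnl hP hmin hy
  obtain ⟨hz, hbd⟩ := hP
  by_cases hy1 : y = z1
  · subst hy1
    exact ⟨∅, Finset.empty_subset _, fun x => by rw [bd_empty, zz]⟩
  by_cases hy2 : y = z2
  · subst hy2
    exact ⟨Q, Finset.Subset.refl _, hbd⟩
  obtain ⟨e, he, hat⟩ := hy
  obtain ⟨y', hy', hpt⟩ : ∃ y', y' ≠ y ∧ ∀ x, pt (α e) x + pt (β e) x = pt y x + pt y' x := by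
    rcases hat with ha | hb
    · exact ⟨β e, fun hh => hnl e he (ha.trans hh.symm), fun x => by rw [ha]⟩
    · exact ⟨α e, fun hh => hnl e he (hh.trans hb.symm), fun x => by rw [hb, add_comm]⟩
  have hQ'bd : ∀ x, bd α β (Q.erase e) x = pt z1 x + pt z2 x + (pt y x + pt y' x) := by
    intro x
    rw [bd_erase α β he, hbd, hpt]
  have hQ'y : bd α β (Q.erase e) y = 1 := by
    rw [hQ'bd, pt_ne hy1, pt_ne hy2, pt_self, pt_ne (Ne.symm hy')]
    simp
  obtain ⟨Q'', hsub, s, hsy, hs1, hQ''⟩ := h ε N α β (Q.erase e) y hQ'y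
  have hsub' : Q'' ⊆ Q := hsub.trans (Finset.erase_subset _ _)
  by_cases hsy' : s = y'
  · exfalso
    subst hsy'
    have he' : e ∉ Q'' := fun hh => Finset.notMem_erase e Q (hsub hh)
    have h0 : insert e Q'' = ∅ := hmin _ (Finset.insert_subset he hsub')
      (fun x => by rw [bd_insert α β he', hpt, hQ'']; exact zz _)
    exact Finset.insert_ne_empty _ _ h0
  have hss : bd α β (Q.erase e) s = pt z1 s + pt z2 s := by
    rw [hQ'bd, pt_ne hsy, pt_ne hsy', add_zero, add_zero]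
  by_cases hs1' : s = z1
  · subst hs1'
    exact ⟨Q'', hsub', fun x => by rw [hQ'', add_comm]⟩
  by_cases hs2' : s = z2
  · subst hs2'
    refine ⟨Q \ Q'', Finset.sdiff_subset, fun x => ?_⟩
    rw [bd_sdiff α β hsub', hbd, hQ'']
    linear_combination zz (pt s x)
  · exfalso
    rw [hss, pt_ne hs1', pt_ne hs2', add_zero] at hs1
    exact zero_ne_one hs1

end Pool.Agent.Helper12.NF
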